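import Pool.Agent.PCO.StmtsP

/-!
# PCO squad (MP_e54c4c_gt), row EXK: zoom at an edge with a large face
-/

set_option autoImplicit false

open Matrix Filter Topology

namespace Pool.Agent.PCO.H11

open Pool.Agent.PFS Pool.Agent.PFJ

variable {n : ℕ}

/-- the coefficients of the zoom point -/
noncomputable def cc {K : ℕ} (t : ℝ) (i : Fin K) : ℝ := if i.val ≤ 1 then 1 else t

theorem sum_cc {K' : ℕ} (w : Fin (K' + 2) → V n) (t : ℝ) :
    ∑ i, cc t i • w i = w 0 + w 1 + t • ∑ j : Fin K', w j.succ.succ := by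
  rw [Fin.sum_univ_succ, Fin.sum_univ_succ, Finset.smul_sum, ← add_assoc]
  have h0 : cc t (0 : Fin (K' + 2)) = 1 := if_pos (by simp)
  have h1 : cc t ((0 : Fin (K' + 1)).succ) = 1 := if_pos (by simp)
  have h2 : ∀ j : Fin K', cc t j.succ.succ = t := fun j => if_neg (by simp)
  rw [h0, h1, one_smul, one_smul]
  simp only [h2]
  rfl

theorem cc_pos {K : ℕ} {t : ℝ} (ht : 0 < t) (i : Fin K) : 0 < cc t i := by
  unfold cc
  split_ifs
  · exact one_pos
  · exact ht

theorem cc_le {K : ℕ} {t : ℝ} (ht : t ≤ 1) (i : Fin K) : cc t i ≤ 1 := by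
  unfold cc
  split_ifs
  · exact le_rfl
  · exact ht

theorem cc_tendsto {K : ℕ} {t : ℕ → ℝ} (ht : Tendsto t atTop (𝓝 0)) (i : Fin K) :
    Tendsto (fun m => cc (t m) i) atTop (𝓝 (cc 0 i)) := by
  unfold cc
  split_ifs
  · exact tendsto_const_nhds
  · exact ht

/-- the zoom -/
theorem zoom {C : Set (V n)} {Γ : Subgroup (GL (Fin n) ℝ)} (h : CC C Γ) {K' : ℕ}
    {w : Fin (K' + 2) → V n} (hw : IsPES C Γ w) (U0 : Submodule ℝ (V n))
    (hU : ∀ v ∈ U0, ∃ M : ℝ, 0 < M ∧ M • (w 0 + w 1) - v ∈ closure C ∧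
      M • (w 0 + w 1) + v ∈ closure C) :
    ∃ (g : ℕ → GL (Fin n) ℝ) (s t : ℕ → ℝ) (W : Fin (K' + 2) → V n) (T : U0 →ₗ[ℝ] V n),
      (∀ m, g m ∈ Γ) ∧ (∀ m, 0 < s m) ∧ (∀ m, 0 < t m) ∧ (∀ m, t m ≤ 1) ∧
      Tendsto t atTop (𝓝 0) ∧ IsPES C Γ W ∧
      (∀ i, Tendsto (fun m => s m • act (g m) (cc (t m) i • w i)) atTop (𝓝 (W i))) ∧
      ∀ y : U0, Tendsto (fun m => s m • act (g m) (y : V n)) atTop (𝓝 (T y)) := by
  have helm := Pool.Agent.PFS.H60.elm n C Γ h (Fin (K' + 2)) w hw
  have htp : ∀ m : ℕ, 0 < 1 / ((m : ℝ) + 1) := fun m => by positivity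
  have ht1 : ∀ m : ℕ, 1 / ((m : ℝ) + 1) ≤ 1 := fun m => by
    rw [div_le_one (by positivity)]
    have : (0 : ℝ) ≤ m := Nat.cast_nonneg m
    linarith
  have ht0 : Tendsto (fun m : ℕ => 1 / ((m : ℝ) + 1)) atTop (𝓝 0) :=
    tendsto_one_div_add_atTop_nhds_zero_nat
  -- zoom points
  obtain ⟨φ, g, s, q, hφ, hg, hs, hq, hlim⟩ := Pool.Agent.PFS.H60.zom n C Γ h
    (fun m : ℕ => ∑ i, cc (1 / ((m : ℝ) + 1)) i • w i)
    (fun m => hw.1.pos _ fun i => cc_pos (htp m) i)
    (fun m => helm.2.2.2.1 _ fun i => cc_pos (htp m) i)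
  have hX : ∀ m, IsPES C Γ (fun i => s m • act (g m) (cc (1 / ((φ m : ℝ) + 1)) i • w i)) := by
    intro m
    have h1 := helm.1 (fun i => cc (1 / ((φ m : ℝ) + 1)) i) fun i => cc_pos (htp (φ m)) i
    exact (Pool.Agent.PFS.H60.elm n C Γ h (Fin (K' + 2)) _ h1).2.1 (g m) (hg m) (s m) (hs m)
  have hsum : Tendsto (fun m => ∑ i, s m • act (g m) (cc (1 / ((φ m : ℝ) + 1)) i • w i)) atTop
      (𝓝 q) := by
    refine hlim.congr fun m => ?_
    rw [CC.act_sum, Finset.smul_sum]
  obtain ⟨ψ, W, hψ, hWlim, hWsum, hWpes⟩ := Pool.Agent.PFS.H37.lpsF n C Γ h (Fin (K' + 2))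
    (by simp) _ q hX hq hsum
  -- the linear map
  classical
  set b := Module.finBasis ℝ U0 with hb
  set d := Module.finrank ℝ U0 with hd
  obtain ⟨B, hB0, hB⟩ := h.normal
  have hx : Tendsto (fun m => s (ψ m) • act (g (ψ m)) (w 0 + w 1)) atTop (𝓝 (W 0 + W 1)) := by
    have h0 := hWlim 0
    have h1 := hWlim 1
    have e0 : ∀ m, cc (1 / ((φ (ψ m) : ℝ) + 1)) (0 : Fin (K' + 2)) = 1 := fun m =>
      if_pos (by simp)
    have e1 : ∀ m, cc (1 / ((φ (ψ m) : ℝ) + 1)) (1 : Fin (K' + 2)) = 1 := fun m =>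
      if_pos (by simp)
    simp only [e0, one_smul] at h0
    simp only [e1, one_smul] at h1
    refine (h0.add h1).congr fun m => ?_
    rw [CC.act_add, smul_add]
  obtain ⟨R, hR⟩ := (Metric.isBounded_range_of_tendsto _ hx).exists_norm_le
  have hbd : ∀ j : Fin d, ∃ R' : ℝ, ∀ m, ‖s (ψ m) • act (g (ψ m)) (b j : V n)‖ ≤ R' := by
    intro j
    obtain ⟨M, hM, hM1, hM2⟩ := hU (b j) (b j).2
    refine ⟨3 * B * M * R, fun m => ?_⟩
    have hRm : ‖s (ψ m) • act (g (ψ m)) (w 0 + w 1)‖ ≤ R := hR _ ⟨m, rfl⟩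
    have h1 : s (ψ m) • act (g (ψ m)) (M • (w 0 + w 1) - (b j : V n)) ∈ closure C :=
      (h.sact_cl_iff (hg _) (hs _)).2 hM1
    have h2 : s (ψ m) • act (g (ψ m)) (M • (w 0 + w 1) + (b j : V n)) ∈ closure C :=
      (h.sact_cl_iff (hg _) (hs _)).2 hM2
    rw [CC.act_sub, CC.act_smul, smul_sub, smul_comm] at h1
    rw [CC.act_add, CC.act_smul, smul_add, smul_comm] at h2
    set X := s (ψ m) • act (g (ψ m)) (w 0 + w 1) with hX'
    set Y := s (ψ m) • act (g (ψ m)) (b j : V n) with hY'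
    have h3 : ‖M • X + Y‖ ≤ B * ‖(2 * M) • X‖ := by
      refine hB _ _ h2 ?_
      have : (2 * M) • X - (M • X + Y) = M • X - Y := by
        rw [two_mul, add_smul]; abel
      rw [this]; exact h1
    have hcl0 : X ∈ closure C := by
      have h5 := h.cl_add h1 h2
      have : M • X - Y + (M • X + Y) = (2 * M) • X := by rw [two_mul, add_smul]; abel
      rw [this] at h5
      exact (h.cl_smul_iff (by linarith)).1 h5
    have h4 : ‖M • X‖ ≤ B * ‖M • X‖ := hB _ _ (h.cl_smul hcl0 hM.le) (by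
      rw [sub_self]; exact h.zero_cl)
    have h6 : Y = (M • X + Y) - M • X := by abel
    have h7 : ‖Y‖ ≤ ‖M • X + Y‖ + ‖M • X‖ := by
      calc ‖Y‖ = ‖(M • X + Y) - M • X‖ := by rw [← h6]
        _ ≤ _ := norm_sub_le _ _
    have h8 : ‖(2 * M) • X‖ = 2 * M * ‖X‖ := by
      rw [norm_smul, Real.norm_of_nonneg (by linarith)]
    have h9 : ‖M • X‖ = M * ‖X‖ := by
      rw [norm_smul, Real.norm_of_nonneg hM.le]
    rw [h8] at h3
    rw [h9] at h4 h7
    have h10 : B * M * ‖X‖ ≤ B * M * R := mul_le_mul_of_nonneg_left hRm (by positivity)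
    nlinarith
  choose R' hR' using hbd
  have hbd2 : ∀ m, (fun j : Fin d => s (ψ m) • act (g (ψ m)) (b j : V n)) ∈
      Metric.closedBall (0 : Fin d → V n) (∑ j, |R' j|) := by
    intro m
    rw [mem_closedBall_zero_iff]
    refine (pi_norm_le_iff_of_nonneg (Finset.sum_nonneg fun j _ => abs_nonneg _)).2 fun j => ?_
    refine (hR' j m).trans ((le_abs_self _).trans ?_)
    exact Finset.single_le_sum (f := fun j => |R' j|) (fun j _ => abs_nonneg _)
      (Finset.mem_univ j)
  obtain ⟨e, -, χ, hχ, helim⟩ := (isCompact_closedBall (0 : Fin d → V n)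
    (∑ j, |R' j|)).tendsto_subseq hbd2
  refine ⟨fun m => g (ψ (χ m)), fun m => s (ψ (χ m)), fun m => 1 / ((φ (ψ (χ m)) : ℝ) + 1), W,
    b.constr ℝ e, fun m => hg _, fun m => hs _, fun m => htp _, fun m => ht1 _, ?_, hWpes,
    fun i => (hWlim i).comp hχ.tendsto_atTop, fun y => ?_⟩
  · exact ht0.comp ((hφ.comp (hψ.comp hχ)).tendsto_atTop)
  · have h1 : ∀ m, s (ψ (χ m)) • act (g (ψ (χ m))) (y : V n) =
        ∑ j, b.repr y j • (s (ψ (χ m)) • act (g (ψ (χ m))) (b j : V n)) := by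
      intro m
      have e1 : (y : V n) = ∑ j, b.repr y j • (b j : V n) := by
        have h3 := congrArg (fun z : U0 => (z : V n)) (b.sum_repr y)
        simp only [Submodule.coe_sum, Submodule.coe_smul] at h3
        exact h3.symm
      conv_lhs => rw [e1]
      rw [CC.act_sum, Finset.smul_sum]
      refine Finset.sum_congr rfl fun j _ => ?_
      rw [CC.act_smul, smul_comm]
    have h2 : b.constr ℝ e y = ∑ j, b.repr y j • e j := by
      rw [Module.Basis.constr_apply_fintype]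
      rfl
    rw [h2]
    simp only [h1]
    refine tendsto_finsetSum _ fun j _ => ?_
    exact ((tendsto_pi_nhds.1 helim) j).const_smul _

/-- positivity of the limit is positivity before the limit -/
theorem claim {C : Set (V n)} {Γ : Subgroup (GL (Fin n) ℝ)} (h : CC C Γ) {K' : ℕ}
    {w W : Fin (K' + 2) → V n} (hw : IsPES C Γ w) (hW : IsPES C Γ W)
    {g : ℕ → GL (Fin n) ℝ} {s t : ℕ → ℝ} (hg : ∀ m, g m ∈ Γ) (hs : ∀ m, 0 < s m)
    (ht : ∀ m, 0 < t m) (ht1 : ∀ m, t m ≤ 1) (ht0 : Tendsto t atTop (𝓝 0))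
    (hlim : ∀ i, Tendsto (fun m => s m • act (g m) (cc (t m) i • w i)) atTop (𝓝 (W i)))
    {y y' : V n} (hy : Tendsto (fun m => s m • act (g m) y) atTop (𝓝 y'))
    {M : ℝ} (hM : 0 < M) (hMy : M • (w 0 + w 1) - y ∈ closure C) {τ : Fin (K' + 2) → ℝ}
    (hτ : ∀ i, i.val ≤ 1 → τ i = 0) (hcl : y' + ∑ i, τ i • W i ∈ closure C) :
    y ∈ closure C ∧ ∀ i, 0 ≤ τ i := by
  have hul := h.hul
  have hwcl : ∀ i, w i ∈ closure C := fun i => hul.lamCl _ (hw.2 i)
  have hq : ∑ i, W i ∈ C := by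
    have := hW.1.pos (fun _ => 1) fun _ => one_pos
    simpa using this
  have key : ∀ ε : ℝ, 0 < ε → ∀ᶠ m in atTop,
      y + ∑ i, ((τ i + ε) * cc (t m) i) • w i ∈ C := by
    intro ε hε
    have h1 : Tendsto (fun m => s m • act (g m) (y + ∑ i, ((τ i + ε) * cc (t m) i) • w i)) atTop
        (𝓝 (y' + ∑ i, (τ i + ε) • W i)) := by
      have h2 : Tendsto (fun m => s m • act (g m) y +
          ∑ i, (τ i + ε) • (s m • act (g m) (cc (t m) i • w i))) atTop
          (𝓝 (y' + ∑ i, (τ i + ε) • W i)) :=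
        hy.add (tendsto_finsetSum _ fun i _ => (hlim i).const_smul _)
      refine h2.congr fun m => ?_
      rw [CC.act_add, smul_add, CC.act_sum, Finset.smul_sum]
      congr 1
      refine Finset.sum_congr rfl fun i _ => ?_
      rw [mul_smul, CC.act_smul (g m) (τ i + ε), smul_comm]
    have h3 : y' + ∑ i, (τ i + ε) • W i ∈ C := by
      have : y' + ∑ i, (τ i + ε) • W i = (y' + ∑ i, τ i • W i) + ε • ∑ i, W i := by
        simp only [add_smul, Finset.sum_add_distrib, Finset.smul_sum]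
        abel
      rw [this]
      exact h.cl_add' hcl (h.smul _ hq ε hε)
    filter_upwards [h1.eventually (h.isOpen.mem_nhds h3)] with m hm
    exact (h.sact_mem_iff (hg m) (hs m)).1 hm
  constructor
  · -- `y + ε x` is in the closure
    have h1 : ∀ ε : ℝ, 0 < ε → y + ε • (w 0 + w 1) ∈ closure C := by
      intro ε hε
      have h2 : Tendsto (fun m => y + ∑ i, ((τ i + ε) * cc (t m) i) • w i) atTop
          (𝓝 (y + ∑ i, ((τ i + ε) * cc 0 i) • w i)) :=
        tendsto_const_nhds.add (tendsto_finsetSum _ fun i _ =>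
          ((cc_tendsto ht0 i).const_mul _).smul_const _)
      have h3 : y + ∑ i, ((τ i + ε) * cc 0 i) • w i = y + ε • (w 0 + w 1) := by
        have h4 : ∀ i : Fin (K' + 2), ((τ i + ε) * cc 0 i) • w i = ε • (cc 0 i • w i) := by
          intro i
          by_cases hi : i.val ≤ 1
          · rw [hτ i hi, zero_add, mul_smul]
          · have : cc 0 i = 0 := if_neg hi
            rw [this]; simp
        simp only [h4]
        rw [← Finset.smul_sum, sum_cc, zero_smul, add_zero]
      rw [h3] at h2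
      exact mem_closure_of_tendsto h2 (key ε hε)
    have h2 : Tendsto (fun m : ℕ => y + (1 / ((m : ℝ) + 1)) • (w 0 + w 1)) atTop
        (𝓝 (y + (0 : ℝ) • (w 0 + w 1))) :=
      tendsto_const_nhds.add (tendsto_one_div_add_atTop_nhds_zero_nat.smul_const _)
    rw [zero_smul, add_zero] at h2
    exact isClosed_closure.mem_of_tendsto h2 (Eventually.of_forall fun m => h1 _ (by positivity))
  · intro l
    by_contra hl
    push Not at hl
    have hl1 : ¬ l.val ≤ 1 := fun h1 => by rw [hτ l h1] at hl; exact lt_irrefl _ hl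
    obtain ⟨m, hm⟩ := (key (-(τ l) / 2) (by linarith)).exists
    set ε := -(τ l) / 2 with hε
    have hεp : 0 < ε := by rw [hε]; linarith
    set a : Fin (K' + 2) → ℝ := fun i => if i = l then 0 else M + |τ i + ε| with ha
    have hbd := hw.1.bd a (fun i => by
      rw [ha]; dsimp only
      split_ifs
      · exact le_rfl
      · positivity) ⟨l, if_pos rfl⟩
    apply hbd
    refine h.mem_of_le hm ?_
    have e1 : ∑ i, a i • w i - (y + ∑ i, ((τ i + ε) * cc (t m) i) • w i) =
        (M • (w 0 + w 1) - y) + ∑ i, (a i - M * cc 0 i - (τ i + ε) * cc (t m) i) • w i := by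
      have e2 : w 0 + w 1 = ∑ i, cc 0 i • w i := by rw [sum_cc, zero_smul, add_zero]
      rw [e2, Finset.smul_sum]
      simp only [sub_smul, Finset.sum_sub_distrib, mul_smul]
      abel
    rw [e1]
    refine h.cl_add hMy (h.cl_sum fun i _ => h.cl_smul (hwcl i) ?_)
    have hc0 := cc_pos (ht m) i
    have hc1 := cc_le (ht1 m) i
    by_cases hi : i = l
    · have h1 : a i = 0 := if_pos hi
      have h2 : cc 0 i = 0 := if_neg (by rw [hi]; exact hl1)
      rw [h1, h2, hi]
      have h3 : (τ l + ε) ≤ 0 := by rw [hε]; linarith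
      have h4 := mul_nonneg_of_nonpos_of_nonpos h3 (neg_nonpos.2 (cc_pos (ht m) l).le)
      linarith
    · have h1 : a i = M + |τ i + ε| := if_neg hi
      rw [h1]
      have h2 : (τ i + ε) * cc (t m) i ≤ |τ i + ε| := by
        calc (τ i + ε) * cc (t m) i ≤ |τ i + ε| * cc (t m) i :=
              mul_le_mul_of_nonneg_right (le_abs_self _) hc0.le
          _ ≤ |τ i + ε| * 1 := mul_le_mul_of_nonneg_left hc1 (abs_nonneg _)
          _ = _ := mul_one _
      have h3 : cc 0 i ≤ 1 := cc_le (by norm_num) i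
      have h4 : M * cc 0 i ≤ M * 1 := mul_le_mul_of_nonneg_left h3 hM.le
      linarith

/-- the factors -/
noncomputable def Lf {K' : ℕ} (U : Submodule ℝ (V n)) (W : Fin (K' + 2) → V n)
    (a : Fin (K' + 2)) : Submodule ℝ (V n) :=
  if a.val = 0 then U else
    if h : a.val + 1 < K' + 2 then Submodule.span ℝ {W ⟨a.val + 1, h⟩} else ⊥

/-- the factor map -/
def Bf {K' : ℕ} (i : Fin (K' + 2)) : Fin (K' + 2) := ⟨i.val - 1, by omega⟩

theorem Lf_zero {K' : ℕ} (U : Submodule ℝ (V n)) (W : Fin (K' + 2) → V n) : Lf U W 0 = U :=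
  if_pos rfl

theorem Lf_mid {K' : ℕ} (U : Submodule ℝ (V n)) (W : Fin (K' + 2) → V n) (j : Fin K') :
    Lf U W j.castSucc.succ = Submodule.span ℝ {W j.succ.succ} := by
  have h1 : ¬ (j.castSucc.succ : Fin (K' + 2)).val = 0 := by simp
  have h2 : (j.castSucc.succ : Fin (K' + 2)).val + 1 < K' + 2 := by
    have := j.2
    simp
  unfold Lf
  rw [if_neg h1, dif_pos h2]
  congr 3

theorem Lf_last {K' : ℕ} (U : Submodule ℝ (V n)) (W : Fin (K' + 2) → V n) :
    Lf U W (Fin.last K').succ = ⊥ := by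
  have h1 : ¬ ((Fin.last K').succ : Fin (K' + 2)).val = 0 := by simp
  have h2 : ¬ ((Fin.last K').succ : Fin (K' + 2)).val + 1 < K' + 2 := by simp
  unfold Lf
  rw [if_neg h1, dif_neg h2]

theorem sum_L {K' : ℕ} (x : Fin (K' + 2) → V n) :
    ∑ a, x a = x 0 + (∑ j : Fin K', x j.castSucc.succ + x (Fin.last K').succ) := by
  rw [Fin.sum_univ_succ, Fin.sum_univ_castSucc]

theorem exk : ExkStmt := by
  intro n C Γ h K' hK' _ w hw h3 hdim
  have hul := h.hul
  have hwcl : ∀ i, w i ∈ closure C := fun i => hul.lamCl _ (hw.2 i)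
  set x := w 0 + w 1 with hx
  set U0 := Submodule.span ℝ (Face C x) with hU0
  have hxcl : x ∈ closure C := h.cl_add (hwcl 0) (hwcl 1)
  have hx0 : x ≠ 0 := by
    intro h0
    have h1 : w 1 = - w 0 := by
      rw [hx] at h0
      exact (neg_eq_of_add_eq_zero_right h0).symm
    have h2 := h.salient _ (hwcl 0) (by rw [← h1]; exact hwcl 1)
    exact hul.lamNe _ (hw.2 0) h2
  have hfce := Pool.Agent.PFB.H69.fce n C h.toPCone x hxcl hx0
  obtain ⟨g, s, t, W, T, hg, hs, ht, ht1, ht0, hW, hWlim, hT⟩ := zoom h hw U0 hfce.2.2.2.1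
  have hWcl : ∀ i, W i ∈ closure C := fun i => hul.lamCl _ (hW.2 i)
  -- `w 0, w 1` are in `U0`
  have hmemU : ∀ y ∈ closure C, x - y ∈ closure C → y ∈ U0 := by
    intro y hy hxy
    have h1 : x + y ∈ Face C x := by
      refine ⟨1 / 2, by norm_num, ?_, ?_⟩
      · have : x - (1 / 2 : ℝ) • (x + y) = (1 / 2 : ℝ) • (x - y) := by
          rw [smul_add, smul_sub]
          have e : x = (1 / 2 : ℝ) • x + (1 / 2 : ℝ) • x := by rw [← add_smul]; norm_num
          conv_lhs => rw [e]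
          rw [← e]
          nth_rewrite 1 [e]
          abel
        rw [this]
        exact h.cl_smul hxy (by norm_num)
      · have : x + y - (1 / 2 : ℝ) • x = (1 / 2 : ℝ) • x + y := by
          have e : x = (1 / 2 : ℝ) • x + (1 / 2 : ℝ) • x := by rw [← add_smul]; norm_num
          nth_rewrite 1 [e]
          abel
        rw [this]
        exact h.cl_add (h.cl_smul hxcl (by norm_num)) hy
    have h2 : x ∈ U0 := Submodule.subset_span hfce.1
    have h4 : y = (x + y) - x := by abel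
    rw [h4]
    exact U0.sub_mem (Submodule.subset_span h1) h2
  have hw0 : w 0 ∈ U0 := hmemU _ (hwcl 0) (by rw [hx, add_sub_cancel_left]; exact hwcl 1)
  have hw1 : w 1 ∈ U0 := hmemU _ (hwcl 1) (by rw [hx, add_sub_cancel_right]; exact hwcl 0)
  have hT0 : T ⟨w 0, hw0⟩ = W 0 := by
    refine tendsto_nhds_unique (hT ⟨w 0, hw0⟩) ?_
    have h1 := hWlim 0
    have e0 : ∀ m, cc (t m) (0 : Fin (K' + 2)) = 1 := fun m => if_pos (by simp)
    simp only [e0, one_smul] at h1
    exact h1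
  have hT1 : T ⟨w 1, hw1⟩ = W 1 := by
    refine tendsto_nhds_unique (hT ⟨w 1, hw1⟩) ?_
    have h1 := hWlim 1
    have e0 : ∀ m, cc (t m) (1 : Fin (K' + 2)) = 1 := fun m => if_pos (by simp)
    simp only [e0, one_smul] at h1
    exact h1
  -- the claim
  have hclaim : ∀ (y : U0) (τ : Fin (K' + 2) → ℝ), (∀ i, i.val ≤ 1 → τ i = 0) →
      T y + ∑ i, τ i • W i ∈ closure C → (y : V n) ∈ closure C ∧ ∀ i, 0 ≤ τ i := by
    intro y τ hτ hcl
    obtain ⟨M, hM, hM1, -⟩ := hfce.2.2.2.1 y y.2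
    exact claim h hw hW hg hs ht ht1 ht0 hWlim (hT y) hM hM1 hτ hcl
  have hpos : ∀ y : U0, (y : V n) ∈ closure C → T y ∈ closure C := fun y hy =>
    isClosed_closure.mem_of_tendsto (hT y) (Eventually.of_forall fun m =>
      (h.sact_cl_iff (hg m) (hs m)).2 hy)
  have hinj : ∀ (y : U0) (τ : Fin (K' + 2) → ℝ), (∀ i, i.val ≤ 1 → τ i = 0) →
      T y + ∑ i, τ i • W i = 0 → y = 0 ∧ ∀ i, τ i = 0 := by
    intro y τ hτ h0
    have h1 := hclaim y τ hτ (by rw [h0]; exact h.zero_cl)
    have h2 := hclaim (-y) (fun i => - τ i) (fun i hi => by rw [hτ i hi, neg_zero]) (by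
      have : T (-y) + ∑ i, -τ i • W i = -(T y + ∑ i, τ i • W i) := by
        simp only [neg_smul, Finset.sum_neg_distrib, map_neg]
        abel
      rw [this, h0, neg_zero]; exact h.zero_cl)
    refine ⟨Subtype.ext (h.salient _ h1.1 (by simpa using h2.1)), fun i => ?_⟩
    have h4 := h1.2 i
    have h5 := h2.2 i
    linarith
  have hTinj : Function.Injective T := by
    rw [injective_iff_map_eq_zero]
    intro y hy
    exact (hinj y (fun _ => 0) (fun _ _ => rfl) (by rw [hy]; simp)).1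
  have hfin : Module.finrank ℝ (LinearMap.range T) = Module.finrank ℝ U0 :=
    LinearMap.finrank_range_of_inj hTinj
  -- sums over `j ≥ 2`
  have hsum2 : ∀ r : Fin K' → ℝ, ∃ τ : Fin (K' + 2) → ℝ, (∀ i, i.val ≤ 1 → τ i = 0) ∧
      (∀ j : Fin K', τ j.succ.succ = r j) ∧
      ∑ i, τ i • W i = ∑ j, r j • W j.succ.succ := by
    intro r
    refine ⟨Fin.cons 0 (Fin.cons 0 r), ?_, ?_, ?_⟩
    · intro i hi
      rcases i with ⟨i, hi'⟩
      have h4 : i = 0 ∨ i = 1 := by
        have : i ≤ 1 := hi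
        omega
      rcases h4 with rfl | rfl
      · rfl
      · rfl
    · intro j
      rw [Fin.cons_succ, Fin.cons_succ]
    · rw [Fin.sum_univ_succ, Fin.sum_univ_succ]
      simp
  refine ⟨Lf (LinearMap.range T) W, W, Bf, ⟨hW, ?_, ?_, ?_, ?_, ?_, ?_⟩, ?_⟩
  · -- mem
    intro i
    by_cases hi0 : i.val ≤ 1
    · have hb : Bf i = 0 := Fin.ext (by show i.val - 1 = 0; omega)
      rw [hb, Lf_zero]
      have h4 : i = 0 ∨ i = 1 := by
        rcases Nat.le_one_iff_eq_zero_or_eq_one.1 hi0 with h5 | h5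
        · exact Or.inl (Fin.ext h5)
        · exact Or.inr (Fin.ext (by rw [h5]; simp))
      rcases h4 with rfl | rfl
      · exact ⟨_, hT0⟩
      · exact ⟨_, hT1⟩
    · push Not at hi0
      have hi2 : i.val - 2 < K' := by have := i.2; omega
      have hb : Bf i = (⟨i.val - 2, hi2⟩ : Fin K').castSucc.succ :=
        Fin.ext (by show i.val - 1 = i.val - 2 + 1; omega)
      have hi3 : i = (⟨i.val - 2, hi2⟩ : Fin K').succ.succ :=
        Fin.ext (by show i.val = i.val - 2 + 1 + 1; omega)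
      rw [hb, Lf_mid, ← hi3]
      exact Submodule.mem_span_singleton_self _
  · -- comp
    intro X hX hcl
    have h4 : ∀ j : Fin K', ∃ r : ℝ, X j.castSucc.succ = r • W j.succ.succ := by
      intro j
      have h5 := hX j.castSucc.succ
      rw [Lf_mid, Submodule.mem_span_singleton] at h5
      obtain ⟨r, hr⟩ := h5
      exact ⟨r, hr.symm⟩
    choose r hr using h4
    have h5 : X (Fin.last K').succ = 0 := by
      have h6 := hX (Fin.last K').succ
      rw [Lf_last, Submodule.mem_bot] at h6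
      exact h6
    have h6 := hX 0
    rw [Lf_zero] at h6
    obtain ⟨y, hy⟩ := h6
    obtain ⟨τ, hτ, hτr, hτs⟩ := hsum2 r
    have h7 : T y + ∑ i, τ i • W i ∈ closure C := by
      have : ∑ a, X a = T y + ∑ i, τ i • W i := by
        rw [sum_L, h5, add_zero, hτs, hy]
        congr 1
        exact Finset.sum_congr rfl fun j _ => hr j
      rw [← this]; exact hcl
    obtain ⟨h8, h9⟩ := hclaim y τ hτ h7
    have h10 : X 0 ∈ closure C := by rw [← hy]; exact hpos y h8
    intro a
    refine Fin.cases h10 (fun b => ?_) a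
    refine Fin.lastCases ?_ (fun j => ?_) b
    · rw [h5]; exact h.zero_cl
    · rw [hr j]
      refine h.cl_smul (hWcl _) ?_
      rw [← hτr j]; exact h9 _
  · -- bot
    intro a ha
    unfold Lf
    by_cases h4 : a.val = 0
    · exact absurd (Fin.ext (by show (0 : ℕ) - 1 = a.val; rw [h4])) (ha 0)
    · rw [if_neg h4]
      by_cases h5 : a.val + 1 < K' + 2
      · exact absurd (Fin.ext (by show a.val + 1 - 1 = a.val; omega)) (ha ⟨a.val + 1, h5⟩)
      · rw [dif_neg h5]
  · -- one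
    intro i hi X hX
    by_cases hi0 : i.val ≤ 1
    · exfalso
      rcases Nat.le_one_iff_eq_zero_or_eq_one.1 hi0 with h5 | h5
      · have h6 := hi 1 (Fin.ext (by show (1 : Fin (K' + 2)).val - 1 = i.val - 1; rw [h5]; simp))
        have h7 := congrArg Fin.val h6
        rw [h5] at h7
        simp at h7
      · have h6 := hi 0 (Fin.ext (by show (0 : Fin (K' + 2)).val - 1 = i.val - 1; rw [h5]; simp))
        have h7 := congrArg Fin.val h6
        rw [h5] at h7
        simp at h7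
    · push Not at hi0
      have hi2 : i.val - 2 < K' := by have := i.2; omega
      have hb : Bf i = (⟨i.val - 2, hi2⟩ : Fin K').castSucc.succ :=
        Fin.ext (by show i.val - 1 = i.val - 2 + 1; omega)
      have hi3 : i = (⟨i.val - 2, hi2⟩ : Fin K').succ.succ :=
        Fin.ext (by show i.val = i.val - 2 + 1 + 1; omega)
      rw [hb, Lf_mid, ← hi3, Submodule.mem_span_singleton] at hX
      obtain ⟨c, hc⟩ := hX
      exact ⟨c, hc.symm⟩
  · -- two
    intro i j hij hb
    have h4 : i.val - 1 = j.val - 1 := congrArg Fin.val hb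
    have h5 : i.val ≠ j.val := fun h => hij (Fin.ext h)
    have hb0 : Bf i = 0 := Fin.ext (by show i.val - 1 = 0; omega)
    rw [hb0, Lf_zero, hfin]
    exact h3
  · -- three
    intro i j l h4 h5
    have h6 : i.val - 1 = j.val - 1 := congrArg Fin.val h4
    have h7 : j.val - 1 = l.val - 1 := congrArg Fin.val h5
    by_cases h8 : i = j
    · exact Or.inl h8
    by_cases h9 : j = l
    · exact Or.inr (Or.inl h9)
    refine Or.inr (Or.inr (Fin.ext ?_))
    have h10 : i.val ≠ j.val := fun h => h8 (Fin.ext h)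
    have h11 : j.val ≠ l.val := fun h => h9 (Fin.ext h)
    omega
  · -- the sum is the whole space
    set Φ : (U0 × (Fin K' → ℝ)) →ₗ[ℝ] V n :=
      T.coprod (Fintype.linearCombination ℝ (fun j : Fin K' => W j.succ.succ)) with hΦ
    have hΦa : ∀ (y : U0) (r : Fin K' → ℝ), Φ (y, r) = T y + ∑ j, r j • W j.succ.succ := by
      intro y r
      rw [hΦ, LinearMap.coprod_apply, Fintype.linearCombination_apply]
    have hΦi : Function.Injective Φ := by
      rw [injective_iff_map_eq_zero]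
      rintro ⟨y, r⟩ h0
      rw [hΦa] at h0
      obtain ⟨τ, hτ, hτr, hτs⟩ := hsum2 r
      obtain ⟨h4, h5⟩ := hinj y τ hτ (by rw [hτs]; exact h0)
      refine Prod.ext h4 (funext fun j => ?_)
      show r j = 0
      rw [← hτr j]; exact h5 _
    have hfr : Module.finrank ℝ (U0 × (Fin K' → ℝ)) = Module.finrank ℝ (V n) := by
      rw [Module.finrank_prod, Module.finrank_fin_fun, Module.finrank_fin_fun]
      exact hdim
    have hsur := (LinearMap.injective_iff_surjective_of_finrank_eq_finrank hfr).1 hΦi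
    rw [eq_top_iff]
    intro z _
    obtain ⟨⟨y, r⟩, hz⟩ := hsur z
    rw [hΦa] at hz
    rw [← hz]
    refine Submodule.add_mem _ ?_ (Submodule.sum_mem _ fun j _ => ?_)
    · refine (le_iSup (Lf (LinearMap.range T) W) 0) ?_
      rw [Lf_zero]
      exact ⟨y, rfl⟩
    · refine (le_iSup (Lf (LinearMap.range T) W) j.castSucc.succ) ?_
      rw [Lf_mid]
      exact Submodule.smul_mem _ _ (Submodule.mem_span_singleton_self _)

end Pool.Agent.PCO.H11
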